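import Pool.Agent.R955.FD.Defs

/-!
Piece UPL of project FD (helper955): upper estimate of the norm of the Riemann sums.
-/

set_option autoImplicit false

namespace Pool.Agent.R478.FD

open MeasureTheory Set Filter Topology
open scoped ENNReal
open Pool.Agent.R955.FD

universe u

section
variable {X : Type u} [NormedAddCommGroup X] [NormedSpace ℂ X]

lemma ch_add_one (n : ℤ) (t : ℝ) : ch (n : ℝ) (t + 1) = ch (n : ℝ) t := by
  unfold ch
  have h : (((2 * Real.pi * (n : ℝ) * (t + 1) : ℝ) : ℂ) * Complex.I)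
      = ((2 * Real.pi * (n : ℝ) * t : ℝ) : ℂ) * Complex.I + n * (2 * Real.pi * Complex.I) := by
    push_cast; ring
  rw [h]
  exact Complex.exp_periodic.int_mul n _

lemma TN_periodic (g : ℝ → X) (A : ℝ) (N : ℕ) (I : Set ℝ) :
    Function.Periodic (TN g A N I) 1 := by
  intro t
  unfold TN
  refine Finset.sum_congr rfl fun n _ => ?_
  rw [ch_add_one]

lemma TN_continuous (g : ℝ → X) (A : ℝ) (N : ℕ) (I : Set ℝ) : Continuous (TN g A N I) := by
  unfold TN
  refine continuous_finsetSum _ fun n _ => ?_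
  split_ifs
  · refine Continuous.const_smul (Continuous.smul ?_ continuous_const) _
    unfold ch
    fun_prop
  · exact continuous_const

omit [NormedSpace ℂ X] in
/-- Norms over two periods of a periodic function agree. -/
lemma nT_eq (f : ℝ → X) (hf : Function.Periodic f 1) (p : ℝ≥0∞) (hp : p ≠ 0) (a : ℝ) :
    nT p f = eLpNorm f p (volume.restrict (Ioc a (a + 1))) := by
  have hv : ∀ (γ : AddSubgroup.zmultiples (1 : ℝ)) (x : ℝ), f (γ +ᵥ x) = f x := by
    rintro ⟨γ, hγ⟩ x
    obtain ⟨k, rfl⟩ := AddSubgroup.mem_zmultiples_iff.1 hγ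
    have h1 := hf.zsmul k x
    rw [show ((⟨k • (1 : ℝ), hγ⟩ : AddSubgroup.zmultiples (1 : ℝ)) +ᵥ x) = x + k • (1 : ℝ) from by
      change k • (1 : ℝ) + x = _
      ring]
    exact h1
  have h0 := isAddFundamentalDomain_Ioc (T := (1 : ℝ)) one_pos 0 volume
  have ha := isAddFundamentalDomain_Ioc (T := (1 : ℝ)) one_pos a volume
  rw [zero_add] at h0
  unfold nT
  by_cases hpt : p = ∞
  · subst hpt
    rw [eLpNorm_exponent_top, eLpNorm_exponent_top]
    unfold eLpNormEssSup
    rw [h0.essSup_measure_restrict (f := fun x => ‖f x‖ₑ) (fun γ x => by simp only [hv]),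
      ha.essSup_measure_restrict (f := fun x => ‖f x‖ₑ) (fun γ x => by simp only [hv])]
  · rw [eLpNorm_eq_lintegral_rpow_enorm_toReal hp hpt, eLpNorm_eq_lintegral_rpow_enorm_toReal hp hpt,
      h0.setLIntegral_eq ha (fun x => ‖f x‖ₑ ^ p.toReal) (fun γ x => by simp only [hv])]

lemma sinc_ge (t : ℝ) (ht : |t| ≤ 1 / 2) : 2 / Real.pi ≤ Real.sinc (Real.pi * t) := by
  have key : ∀ s : ℝ, 0 < s → s ≤ 1 / 2 → 2 / Real.pi ≤ Real.sinc (Real.pi * s) := by
    intro s hs hs2
    have hpi := Real.pi_pos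
    have hps : 0 < Real.pi * s := by positivity
    rw [Real.sinc_of_ne_zero hps.ne']
    have h := Real.mul_le_sin (x := Real.pi * s) hps.le (by nlinarith)
    rw [le_div_iff₀ hps]
    exact h
  rcases lt_trichotomy t 0 with h | h | h
  · have h1 := key (-t) (by linarith) (by rw [abs_of_neg h] at ht; exact ht)
    rw [mul_neg, Real.sinc_neg] at h1
    exact h1
  · subst h
    simp only [mul_zero, Real.sinc_zero]
    rw [div_le_one Real.pi_pos]
    exact Real.two_le_pi
  · exact key t h (by rw [abs_of_pos h] at ht; exact ht)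

omit [NormedSpace ℂ X] in
lemma scale_norm (f : ℝ → X) (p : ℝ≥0∞) (N : ℕ) (hN : 1 ≤ N) :
    ENNReal.ofReal ((N : ℝ) ^ (1 / p.toReal)) * eLpNorm (fun t => f ((N : ℝ) * t)) p volume
      = eLpNorm f p volume := by
  have hN0 : (0 : ℝ) < N := by exact_mod_cast hN
  have h1 : eLpNorm (fun t => f ((N : ℝ) * t)) p volume
      = eLpNorm f p (Measure.map (fun x : ℝ => (N : ℝ) * x) volume) := by
    rw [(measurableEmbedding_mulLeft₀ hN0.ne').eLpNorm_map_measure]
    rfl
  rw [h1, Real.map_volume_mul_left hN0.ne', abs_of_pos (by positivity),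
    eLpNorm_smul_measure_of_ne_zero
      (by rw [Ne, ENNReal.ofReal_eq_zero, not_le]; positivity), smul_eq_mul, ← mul_assoc]
  have h2 : ENNReal.ofReal ((N : ℝ) ^ (1 / p.toReal)) * ENNReal.ofReal ((N : ℝ)⁻¹) ^ (1 / p).toReal = 1 := by
    have h3 : (1 / p).toReal = 1 / p.toReal := by
      rw [one_div, ENNReal.toReal_inv, one_div]
    rw [h3, ENNReal.ofReal_rpow_of_pos (by positivity), ← ENNReal.ofReal_mul (by positivity),
      Real.inv_rpow hN0.le, mul_inv_cancel₀ (by positivity), ENNReal.ofReal_one]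
  rw [h2, one_mul]

end

theorem t_UPL (h1 : S_RIE.{u}) (h2 : S_DEC.{u}) : S_UPL.{u} := by
  intro X _ _ _ g A L p hg hp
  obtain ⟨C, hC, hrie⟩ := h1 X g A L hg
  obtain ⟨C2, hC2, hdec, -⟩ := h2 X g A L hg
  have hp0 : p ≠ 0 := (lt_trans one_pos hp).ne'
  have hexp : 1 / p.toReal - 1 < 0 := by
    by_cases hpt : p = ∞
    · subst hpt; simp
    · have : 1 < p.toReal := by
        rw [← ENNReal.toReal_one]
        exact (ENNReal.toReal_lt_toReal ENNReal.one_ne_top hpt).2 hp
      have h3 : 1 / p.toReal < 1 := by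
        rw [div_lt_one (by linarith)]; exact this
      linarith
  refine ⟨fun N => C * (N : ℝ) ^ (1 / p.toReal - 1), ?_, ?_⟩
  · have h3 : Tendsto (fun x : ℝ => x ^ (-(1 - 1 / p.toReal))) atTop (𝓝 0) :=
      tendsto_rpow_neg_atTop (by linarith)
    have h4 := (h3.comp tendsto_natCast_atTop_atTop).const_mul C
    rw [mul_zero] at h4
    refine h4.congr fun N => ?_
    simp only [Function.comp_apply, neg_sub]
  · intro N hN I hI
    have hN0 : (0 : ℝ) < N := by exact_mod_cast hN
    have hpi := Real.pi_pos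
    obtain ⟨hcont, -, -⟩ := hdec I hI
    set μ : Measure ℝ := volume.restrict (Ioc (-(1 / 2) : ℝ) (-(1 / 2) + 1)) with hμ
    have hμ1 : μ univ = 1 := by
      rw [hμ, Measure.restrict_apply_univ, Real.volume_Ioc]
      norm_num
    have hμ0 : μ ≠ 0 := by
      intro h; rw [h] at hμ1; simp at hμ1
    -- the pointwise estimate
    have hpt : ∀ᵐ t ∂μ, ‖TN g A N I t‖ ≤
        ‖((Real.pi / 2 : ℝ) • ((fun s : ℝ => ‖Ext g I ((N : ℝ) * s)‖) + fun _ : ℝ => C / (N : ℝ)) : ℝ → ℝ) t‖ := by
      rw [hμ]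
      filter_upwards [ae_restrict_mem measurableSet_Ioc] with t ht
      have hta : |t| ≤ 1 / 2 := by
        rw [abs_le]; constructor
        · exact ht.1.le
        · have := ht.2; linarith
      have h3 := hrie N hN I hI t hta
      have h4 := sinc_ge t hta
      have hs0 : 0 < Real.sinc (Real.pi * t) := lt_of_lt_of_le (by positivity) h4
      have h5 : ‖((Real.sinc (Real.pi * t) : ℝ) : ℂ) • TN g A N I t‖
          = Real.sinc (Real.pi * t) * ‖TN g A N I t‖ := by
        rw [norm_smul, Complex.norm_real, Real.norm_eq_abs, abs_of_pos hs0]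
      have h6 : ‖((Real.sinc (Real.pi * t) : ℝ) : ℂ) • TN g A N I t‖
          ≤ ‖Ext g I ((N : ℝ) * t)‖ + C / N := by
        calc ‖((Real.sinc (Real.pi * t) : ℝ) : ℂ) • TN g A N I t‖
            = ‖(((Real.sinc (Real.pi * t) : ℝ) : ℂ) • TN g A N I t - Ext g I ((N : ℝ) * t))
              + Ext g I ((N : ℝ) * t)‖ := by rw [sub_add_cancel]
          _ ≤ _ := by
            refine (norm_add_le _ _).trans ?_
            linarith
      have h7 : 2 / Real.pi * ‖TN g A N I t‖ ≤ ‖Ext g I ((N : ℝ) * t)‖ + C / N := by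
        refine le_trans (mul_le_mul_of_nonneg_right h4 (norm_nonneg _)) ?_
        rw [← h5]; exact h6
      have h8 : ‖TN g A N I t‖ ≤ Real.pi / 2 * (‖Ext g I ((N : ℝ) * t)‖ + C / N) := by
        have h9 : ‖TN g A N I t‖ = Real.pi / 2 * (2 / Real.pi * ‖TN g A N I t‖) := by
          field_simp
        rw [h9]
        exact mul_le_mul_of_nonneg_left h7 (by positivity)
      refine h8.trans ?_
      simp only [Pi.smul_apply, Pi.add_apply, smul_eq_mul]
      exact le_abs_self _
    have hcomp : Continuous fun t : ℝ => Ext g I ((N : ℝ) * t) :=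
      hcont.comp (continuous_const.mul continuous_id)
    have hae : AEStronglyMeasurable (fun t : ℝ => ‖Ext g I ((N : ℝ) * t)‖) μ :=
      hcomp.norm.aestronglyMeasurable
    have hmain : nT p (TN g A N I) ≤ ENNReal.ofReal (Real.pi / 2) *
        (eLpNorm (fun t => Ext g I ((N : ℝ) * t)) p volume + ENNReal.ofReal (C / N)) := by
      rw [nT_eq (TN g A N I) (TN_periodic g A N I) p hp0 (-(1 / 2))]
      refine (eLpNorm_mono_ae hpt).trans ?_
      rw [eLpNorm_const_smul, Real.enorm_eq_ofReal (by positivity)]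
      refine mul_le_mul_right ?_ _
      refine (eLpNorm_add_le hae aestronglyMeasurable_const hp.le).trans ?_
      refine add_le_add ?_ ?_
      · rw [eLpNorm_norm]
        exact eLpNorm_mono_measure _ Measure.restrict_le_self
      · rw [eLpNorm_const _ hp0 hμ0, hμ1, ENNReal.one_rpow, mul_one, Real.enorm_eq_ofReal (by positivity)]
    calc ENNReal.ofReal ((N : ℝ) ^ (1 / p.toReal)) * nT p (TN g A N I)
        ≤ ENNReal.ofReal ((N : ℝ) ^ (1 / p.toReal)) * (ENNReal.ofReal (Real.pi / 2) *
        (eLpNorm (fun t => Ext g I ((N : ℝ) * t)) p volume + ENNReal.ofReal (C / N))) :=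
          mul_le_mul_right hmain _
      _ = ENNReal.ofReal (Real.pi / 2) * (ENNReal.ofReal ((N : ℝ) ^ (1 / p.toReal)) *
            eLpNorm (fun t => Ext g I ((N : ℝ) * t)) p volume
            + ENNReal.ofReal ((N : ℝ) ^ (1 / p.toReal)) * ENNReal.ofReal (C / N)) := by ring
      _ = _ := by
        rw [scale_norm (Ext g I) p N hN, ← ENNReal.ofReal_mul (by positivity)]
        unfold nR
        congr 3
        simp only []
        rw [Real.rpow_sub_one hN0.ne']
        ring

end Pool.Agent.R478.FD
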